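import Mathlib

/-!
# MP_49f1ce_an: a non-mixing suspension flow over the period doubling shift
-/

set_option autoImplicit false
open Filter Topology Set

namespace Pool.Agent.Results.MP_49f1ce_an.PeriodDoubling

section defs

variable {A : Type} [TopologicalSpace A]

/-- The left shift. -/
def sh (x : ℤ → A) : ℤ → A := fun i => x (i + 1)

/-- A shift space: a nonempty closed set `X` with `σ X = X`. -/
structure IsShiftSpace (X : Set (ℤ → A)) : Prop where
  nonempty : X.Nonempty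
  closed : IsClosed X
  inv : ∀ x, sh x ∈ X ↔ x ∈ X

/-- The shift as a homeomorphism of the shift space `X`. -/
def shift {X : Set (ℤ → A)} (hX : IsShiftSpace X) : X ≃ₜ X where
  toFun x := ⟨sh x.1, (hX.inv _).2 x.2⟩
  invFun x := ⟨fun i => x.1 (i - 1), (hX.inv _).1 (by
    have : sh (fun i => x.1 (i - 1)) = x.1 := by funext i; simp [sh]
    rw [this]; exact x.2)⟩
  left_inv x := by apply Subtype.ext; funext i; simp [sh]
  right_inv x := by apply Subtype.ext; funext i; simp [sh]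
  continuous_toFun := by
    apply Continuous.subtype_mk
    exact continuous_pi fun i => (continuous_apply (i + 1)).comp continuous_subtype_val
  continuous_invFun := by
    apply Continuous.subtype_mk
    exact continuous_pi fun i => (continuous_apply (i - 1)).comp continuous_subtype_val

/-- `X` is transitive. -/
def IsTransitive {X : Set (ℤ → A)} (hX : IsShiftSpace X) : Prop :=
  ∀ U V : Set X, IsOpen U → IsOpen V → U.Nonempty → V.Nonempty →
    ∃ n : ℕ, 1 ≤ n ∧ ((shift hX)^[n] '' U ∩ V).Nonempty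

/-- The set of periodic points. -/
def periodic {X : Set (ℤ → A)} (hX : IsShiftSpace X) : Set X :=
  {x | ∃ n : ℕ, 1 ≤ n ∧ (shift hX)^[n] x = x}

/-- `f` and `g` are cohomologous: `f - g = h ∘ σ - h` for a continuous `h`. -/
def Cohomologous {X : Set (ℤ → A)} (hX : IsShiftSpace X) (f g : X → ℝ) : Prop :=
  ∃ h : X → ℝ, Continuous h ∧ ∀ x, f x - g x = h (shift hX x) - h x

/-- `g` is locally constant: for some `N`, `g x` depends only on `x_{-N}, …, x_N`. -/
def IsLocConst {X : Set (ℤ → A)} (g : X → ℝ) : Prop :=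
  ∃ N : ℕ, ∀ x y : X, (∀ i : ℤ, |i| ≤ N → x.1 i = y.1 i) → g x = g y

/-- A roof function. -/
def IsRoof {X : Set (ℤ → A)} (r : X → ℝ) : Prop := Continuous r ∧ ∀ x, 0 < r x

/-- The identification `(x, s) ↦ (σ x, s - r(x))` of `X × ℝ`. -/
def glue {X : Set (ℤ → A)} (hX : IsShiftSpace X) {r : X → ℝ} (hr : IsRoof r) :
    (X × ℝ) ≃ₜ (X × ℝ) where
  toFun p := (shift hX p.1, p.2 - r p.1)
  invFun p := ((shift hX).symm p.1, p.2 + r ((shift hX).symm p.1))
  left_inv p := by simp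
  right_inv p := by simp
  continuous_toFun := ((shift hX).continuous.comp continuous_fst).prodMk
    (continuous_snd.sub (hr.1.comp continuous_fst))
  continuous_invFun := ((shift hX).symm.continuous.comp continuous_fst).prodMk
    (continuous_snd.add (hr.1.comp ((shift hX).symm.continuous.comp continuous_fst)))

/-- The equivalence relation on `X × ℝ` generated by `(x, s) ∼ (σ x, s - r(x))`. -/
def susp {X : Set (ℤ → A)} (hX : IsShiftSpace X) {r : X → ℝ} (hr : IsRoof r) :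
    Setoid (X × ℝ) where
  r p q := ∃ n : ℤ, (glue hX hr ^ n) p = q
  iseqv := {
    refl := fun p => ⟨0, rfl⟩
    symm := by
      rintro p q ⟨n, rfl⟩
      refine ⟨-n, ?_⟩
      rw [← Homeomorph.mul_apply, ← zpow_add, neg_add_cancel]; rfl
    trans := by
      rintro p q s ⟨n, rfl⟩ ⟨m, rfl⟩
      exact ⟨m + n, by rw [zpow_add]; rfl⟩ }

lemma glue_zpow_add {X : Set (ℤ → A)} (hX : IsShiftSpace X) {r : X → ℝ} (hr : IsRoof r) (t : ℝ)
    (n : ℤ) (p : X × ℝ) :
    (glue hX hr ^ n) (p.1, p.2 + t) = (((glue hX hr ^ n) p).1, ((glue hX hr ^ n) p).2 + t) := by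
  let τ : (X × ℝ) ≃ₜ (X × ℝ) := (Homeomorph.refl X).prodCongr (Homeomorph.addRight t)
  have hc : Commute (glue hX hr) τ := by
    apply Homeomorph.ext
    intro q
    change (shift hX q.1, q.2 + t - r q.1) = (shift hX q.1, q.2 - r q.1 + t)
    rw [Prod.mk.injEq]
    exact ⟨rfl, by ring⟩
  exact DFunLike.congr_fun (hc.zpow_left n).eq p

/-- The suspension flow `φ_t (x, s) = (x, s + t)` on `X_r`. -/
def flow {X : Set (ℤ → A)} (hX : IsShiftSpace X) {r : X → ℝ} (hr : IsRoof r) (t : ℝ) :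
    Quotient (susp hX hr) → Quotient (susp hX hr) :=
  Quotient.map (fun p => (p.1, p.2 + t)) (by
    rintro p q ⟨n, rfl⟩
    exact ⟨n, glue_zpow_add hX hr t n p⟩)

/-- The suspension flow is topologically mixing. -/
def IsMixing {X : Set (ℤ → A)} (hX : IsShiftSpace X) {r : X → ℝ} (hr : IsRoof r) : Prop :=
  ∀ U V : Set (Quotient (susp hX hr)), IsOpen U → IsOpen V → U.Nonempty → V.Nonempty →
    ∃ T : ℝ, ∀ t ≥ T, (flow hX hr t '' U ∩ V).Nonempty

end defs

/-! ### The period doubling sequence -/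

/-- the sequence: parity of the 2-adic valuation -/
def w (i : ℤ) : Bool := decide (padicValInt 2 i % 2 = 1)

lemma v_eq {a : ℤ} {s : ℕ} {u : ℤ} (h : a = 2 ^ s * u) (hu : u % 2 = 1) : padicValInt 2 a = s := by
  have ha : a ≠ 0 := by
    rw [h]
    exact mul_ne_zero (by positivity) (by omega)
  apply le_antisymm
  · by_contra hcon
    push Not at hcon
    have h1 : (2 : ℤ) ^ (s + 1) ∣ a := by
      have := (padicValInt_dvd_iff (p := 2) (s + 1) a).2 (Or.inr hcon)
      exact_mod_cast this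
    rw [h, pow_succ] at h1
    have h2 : (2 : ℤ) ∣ u := Int.dvd_of_mul_dvd_mul_left (by positivity) h1
    omega
  · have h1 : ((2 : ℕ) : ℤ) ^ s ∣ a := ⟨u, by rw [h]; norm_num⟩
    exact ((padicValInt_dvd_iff (p := 2) s a).1 h1).resolve_left ha

lemma decomp {a : ℤ} (ha : a ≠ 0) : ∃ (s : ℕ) (u : ℤ), a = 2 ^ s * u ∧ u % 2 = 1 := by
  obtain ⟨u, hu⟩ := padicValInt_dvd (p := 2) a
  refine ⟨padicValInt 2 a, u, by exact_mod_cast hu, ?_⟩
  by_contra hcon
  obtain ⟨c, hc⟩ : (2 : ℤ) ∣ u := by omega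
  have h1 : ((2 : ℕ) : ℤ) ^ (padicValInt 2 a + 1) ∣ a := by
    refine ⟨c, ?_⟩
    calc a = ((2 : ℕ) : ℤ) ^ padicValInt 2 a * u := hu
      _ = _ := by rw [hc, pow_succ]; push_cast; ring
  have := ((padicValInt_dvd_iff (p := 2) _ a).1 h1).resolve_left ha
  omega

lemma w_congr {k : ℕ} {a b : ℤ} (ha : ¬ (2 : ℤ) ^ k ∣ a) (hb : (2 : ℤ) ^ k ∣ b - a) : w b = w a := by
  have ha0 : a ≠ 0 := by rintro rfl; exact ha (dvd_zero _)
  obtain ⟨s, u, hs, hu⟩ := decomp ha0
  obtain ⟨t, ht⟩ := hb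
  have hsk : s < k := by
    by_contra hcon
    push Not at hcon
    exact ha (hs ▸ (pow_dvd_pow 2 hcon).mul_right u)
  obtain ⟨d, rfl⟩ : ∃ d, k = s + (d + 1) := ⟨k - s - 1, by omega⟩
  have hb' : b = 2 ^ s * (u + 2 * (2 ^ d * t)) := by
    have : b = a + 2 ^ (s + (d + 1)) * t := by linarith
    rw [this, hs]; ring
  unfold w
  rw [v_eq hb' (by omega), v_eq hs hu]

lemma sep {m p : ℤ} {j : ℕ} (hp : ¬ (2 : ℤ) ^ j ∣ p) :
    ∃ i : ℤ, 0 ≤ i ∧ i < 2 ^ (j + 1) ∧ w (m + i) ≠ w (m + p + i) := by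
  have hp0 : p ≠ 0 := by rintro rfl; exact hp (dvd_zero _)
  obtain ⟨s, q, hs, hq⟩ := decomp hp0
  have hsj : s < j := by
    by_contra hcon
    push Not at hcon
    exact hp (hs ▸ (pow_dvd_pow 2 hcon).mul_right q)
  have hpos : (0 : ℤ) < 2 ^ (s + 2) := by positivity
  refine ⟨(2 ^ s * (2 - q) - m) % 2 ^ (s + 2), Int.emod_nonneg _ hpos.ne', ?_, ?_⟩
  · refine (Int.emod_lt_of_pos _ hpos).trans_le ?_
    exact pow_le_pow_right₀ (by norm_num) (by omega)
  · set i := (2 ^ s * (2 - q) - m) % 2 ^ (s + 2) with hi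
    obtain ⟨t, ht⟩ : ∃ t : ℤ, m + i = 2 ^ s * (2 - q + 4 * t) := by
      refine ⟨-((2 ^ s * (2 - q) - m) / 2 ^ (s + 2)), ?_⟩
      have := Int.emod_add_mul_ediv (2 ^ s * (2 - q) - m) (2 ^ (s + 2))
      rw [← hi] at this
      have e : (2 : ℤ) ^ (s + 2) = 2 ^ s * 4 := by rw [pow_add]; norm_num
      rw [e] at this ⊢
      linarith
    have h1 : m + p + i = 2 ^ (s + 1) * (1 + 2 * t) := by
      have : m + p + i = (m + i) + p := by ring
      rw [this, ht, hs, pow_succ]; ring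
    unfold w
    rw [v_eq ht (by omega), v_eq h1 (by omega)]
    intro h
    rw [decide_eq_decide] at h
    omega

/-- The period doubling shift: all the two-sided sequences all of whose finite patterns occur in
`w`. -/
def X : Set (ℤ → Bool) := {x | ∀ N : ℕ, ∃ m : ℤ, ∀ i : ℤ, |i| ≤ N → x i = w (m + i)}

lemma nhds_win {x : ℤ → Bool} {O : Set (ℤ → Bool)} (hO : O ∈ 𝓝 x) :
    ∃ N : ℕ, ∀ y : ℤ → Bool, (∀ i : ℤ, |i| ≤ N → y i = x i) → y ∈ O := by
  rw [nhds_pi, Filter.mem_pi] at hO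
  obtain ⟨I, hI, t, ht, hsub⟩ := hO
  refine ⟨hI.toFinset.sup Int.natAbs, fun y hy => hsub fun i hi => ?_⟩
  have h1 : |i| ≤ ((hI.toFinset.sup Int.natAbs : ℕ) : ℤ) := by
    rw [Int.abs_eq_natAbs]
    exact_mod_cast Finset.le_sup (f := Int.natAbs) (hI.mem_toFinset.2 hi)
  rw [hy i h1]
  exact mem_of_mem_nhds (ht i)

lemma isOpen_win (x : ℤ → Bool) (N : ℕ) : IsOpen {y : ℤ → Bool | ∀ i : ℤ, |i| ≤ N → y i = x i} := by
  have h1 : {y : ℤ → Bool | ∀ i : ℤ, |i| ≤ N → y i = x i} =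
      ⋂ i ∈ Finset.Icc (-(N : ℤ)) N, (fun y : ℤ → Bool => y i) ⁻¹' {x i} := by
    ext y
    simp only [mem_setOf_eq, mem_iInter, Finset.mem_Icc, mem_preimage, mem_singleton_iff, abs_le]
  rw [h1]
  exact isOpen_biInter_finset fun i _ => (isOpen_discrete _).preimage (continuous_apply i)

lemma X_shift : IsShiftSpace X where
  nonempty := ⟨w, fun N => ⟨0, fun i _ => by rw [zero_add]⟩⟩
  closed := by
    rw [← closure_subset_iff_isClosed]
    intro x hx N
    obtain ⟨y, hy, hyX⟩ := mem_closure_iff.1 hx _ (isOpen_win x N) (fun i _ => rfl)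
    obtain ⟨m, hm⟩ := hyX N
    exact ⟨m, fun i hi => (hy i hi).symm.trans (hm i hi)⟩
  inv := by
    intro x
    constructor
    · intro h N
      obtain ⟨m, hm⟩ := h (N + 1)
      refine ⟨m - 1, fun i hi => ?_⟩
      have := hm (i - 1) (by rw [abs_le] at *; push_cast; omega)
      simp only [sh, sub_add_cancel] at this
      rw [this]; congr 1; ring
    · intro h N
      obtain ⟨m, hm⟩ := h (N + 1)
      refine ⟨m + 1, fun i hi => ?_⟩
      have := hm (i + 1) (by rw [abs_le] at *; push_cast; omega)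
      simp only [sh]
      rw [this]; congr 1; ring

/-- the shift of `X` -/
noncomputable abbrev σ : X ≃ₜ X := shift X_shift

lemma σ_iter (n : ℕ) (x : X) (i : ℤ) : (σ^[n] x).1 i = x.1 (i + n) := by
  induction n generalizing i with
  | zero => simp
  | succ n ih =>
    rw [Function.iterate_succ_apply']
    change (σ^[n] x).1 (i + 1) = _
    rw [ih]
    push_cast
    congr 1; ring

/-- the orbit points -/
def orb (m : ℤ) : X := ⟨fun i => w (m + i), fun _ => ⟨m, fun _ _ => rfl⟩⟩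

lemma approx (x : X) (N : ℕ) : ∃ m : ℤ, ∀ i : ℤ, |i| ≤ N → x.1 i = w (m + i) := x.2 N

/-- the residue of `x` modulo `2^j` -/
noncomputable def res (j : ℕ) (x : X) : ℤ := (approx x (2 ^ (j + 1))).choose % 2 ^ j

lemma res_eq {j : ℕ} {x : X} {m : ℤ} (hm : ∀ i : ℤ, 0 ≤ i → i < 2 ^ (j + 1) → x.1 i = w (m + i)) :
    res j x = m % 2 ^ j := by
  have hc := (approx x (2 ^ (j + 1))).choose_spec
  unfold res
  set c := (approx x (2 ^ (j + 1))).choose with hcd
  by_contra hne
  have hnd : ¬ (2 : ℤ) ^ j ∣ c - m := by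
    intro h
    exact hne (Int.modEq_iff_dvd.2 h).symm
  obtain ⟨i, hi0, hi1, hi⟩ := sep (m := m) hnd
  apply hi
  rw [← hm i hi0 hi1, hc i (by
    rw [abs_of_nonneg hi0]
    push_cast
    exact hi1.le)]
  congr 1; ring

lemma res_nonneg (j : ℕ) (x : X) : 0 ≤ res j x := Int.emod_nonneg _ (by positivity)

lemma res_lt (j : ℕ) (x : X) : res j x < 2 ^ j := Int.emod_lt_of_pos _ (by positivity)

lemma res_orb (j : ℕ) (m : ℤ) : res j (orb m) = m % 2 ^ j := res_eq fun _ _ _ => rfl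

lemma res_iter (j n : ℕ) (x : X) : res j (σ^[n] x) = (res j x + n) % 2 ^ j := by
  obtain ⟨m, hm⟩ := approx x (n + 2 ^ (j + 1))
  have h1 : res j x = m % 2 ^ j := res_eq fun i h0 h1 => hm i (by
    rw [abs_of_nonneg h0]; push_cast; omega)
  have h2 : res j (σ^[n] x) = (m + n) % 2 ^ j := res_eq fun i h0 h1 => by
    rw [σ_iter, hm (i + n) (by rw [abs_of_nonneg (by omega)]; push_cast; omega)]
    congr 1; ring
  rw [h1, h2, Int.emod_add_emod]

lemma res_continuous (j : ℕ) : Continuous (res j) := by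
  rw [continuous_discrete_rng]
  intro b
  rw [isOpen_iff_forall_mem_open]
  intro x hx
  refine ⟨Subtype.val ⁻¹' {y | ∀ i : ℤ, |i| ≤ ((2 ^ (j + 1) : ℕ) : ℤ) → y i = x.1 i}, ?_,
    (isOpen_win _ _).preimage continuous_subtype_val, fun _ _ => rfl⟩
  intro y hy
  obtain ⟨m, hm⟩ := approx x (2 ^ (j + 1))
  have hb : ∀ i : ℤ, 0 ≤ i → i < 2 ^ (j + 1) → |i| ≤ ((2 ^ (j + 1) : ℕ) : ℤ) := fun i h0 h1 => by
    rw [abs_of_nonneg h0]; push_cast; omega
  have h1 : res j x = m % 2 ^ j := res_eq fun i h0 h1 => hm i (hb i h0 h1)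
  have h2 : res j y = m % 2 ^ j := res_eq fun i h0 h1 => by
    rw [hy i (hb i h0 h1), hm i (hb i h0 h1)]
  have hx' : res j x = b := hx
  change res j y = b
  rw [h2, ← h1, hx']

/-- the binary digits -/
noncomputable def D (j : ℕ) (a : ℤ) : ℝ := if (2 : ℤ) ^ j ≤ a % 2 ^ (j + 1) then 1 else 0

lemma D_nonneg (j : ℕ) (a : ℤ) : 0 ≤ D j a := by unfold D; split_ifs <;> norm_num

lemma D_le (j : ℕ) (a : ℤ) : D j a ≤ 1 := by unfold D; split_ifs <;> norm_num

lemma D_mod {j : ℕ} {a b : ℤ} (h : a % 2 ^ (j + 1) = b % 2 ^ (j + 1)) : D j a = D j b := by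
  unfold D; rw [h]

lemma D_add (j : ℕ) (a : ℤ) : D j a + D j (a + 2 ^ j) = 1 := by
  have hP : (0 : ℤ) < 2 ^ j := by positivity
  have h2P : (2 : ℤ) ^ (j + 1) = 2 ^ j + 2 ^ j := by rw [pow_succ]; ring
  have hρ0 : 0 ≤ a % 2 ^ (j + 1) := Int.emod_nonneg _ (by positivity)
  have hρ1 : a % 2 ^ (j + 1) < 2 ^ (j + 1) := Int.emod_lt_of_pos _ (by positivity)
  have h3 : (a + 2 ^ j) % 2 ^ (j + 1) = (a % 2 ^ (j + 1) + 2 ^ j) % 2 ^ (j + 1) :=
    (Int.emod_add_emod _ _ _).symm
  unfold D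
  rw [h3]
  set ρ := a % 2 ^ (j + 1) with hρ
  by_cases h : (2 : ℤ) ^ j ≤ ρ
  · have h4 : (ρ + 2 ^ j) % 2 ^ (j + 1) = ρ - 2 ^ j := by
      have : ρ + 2 ^ j = (ρ - 2 ^ j) + 2 ^ (j + 1) := by rw [h2P]; ring
      rw [this, Int.add_emod_right, Int.emod_eq_of_lt (by omega) (by omega)]
    rw [h4, if_pos h, if_neg (by omega), add_zero]
  · have h4 : (ρ + 2 ^ j) % 2 ^ (j + 1) = ρ + 2 ^ j := Int.emod_eq_of_lt (by omega) (by omega)
    rw [h4, if_neg h, if_pos (by omega), zero_add]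

lemma D_sum (j : ℕ) (k : ℕ) : ∀ a : ℤ,
    ∑ i ∈ Finset.range (2 ^ (j + 1 + k)), D j (a + i) = 2 ^ (j + k) := by
  induction k with
  | zero =>
    intro a
    rw [add_zero, pow_succ, mul_two, Finset.sum_range_add, ← Finset.sum_add_distrib]
    rw [Finset.sum_congr rfl (g := fun _ => (1 : ℝ))]
    · simp
    · intro i _
      rw [← D_add j (a + i)]
      congr 2
      push_cast; ring
  | succ k ih =>
    intro a
    rw [← add_assoc, pow_succ, mul_two, Finset.sum_range_add, ih]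
    have h1 : ∑ i ∈ Finset.range (2 ^ (j + 1 + k)), D j (a + ((2 ^ (j + 1 + k) + i : ℕ) : ℤ)) =
        2 ^ (j + k) := by
      rw [← ih (a + 2 ^ (j + 1 + k))]
      apply Finset.sum_congr rfl
      intro i _
      congr 1
      push_cast; ring
    rw [h1, ← add_assoc, pow_succ]; ring

/-- digits of points -/
noncomputable def dg (j : ℕ) (x : X) : ℝ := D j (res (j + 1) x)

lemma dg_iter (j n : ℕ) (x : X) : dg j (σ^[n] x) = D j (res (j + 1) x + n) := by
  unfold dg
  apply D_mod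
  rw [res_iter, Int.emod_emod_of_dvd _ (dvd_refl _)]

lemma dg_orb (j : ℕ) (m : ℤ) : dg j (orb m) = D j m := by
  unfold dg
  apply D_mod
  rw [res_orb, Int.emod_emod_of_dvd _ (dvd_refl _)]

/-- the roof function -/
noncomputable def r (x : X) : ℝ := 1 + ∑' j : ℕ, dg j x / 2 ^ (j + 1)

lemma summable_geo : Summable fun j : ℕ => (1 : ℝ) / 2 ^ (j + 1) := by
  have := (summable_geometric_two' (1 : ℝ))
  refine this.congr fun j => ?_
  rw [pow_succ]; field_simp

lemma tsum_geo : ∑' j : ℕ, (1 : ℝ) / 2 ^ (j + 1) = 1 := by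
  refine (tsum_congr fun j => ?_).trans (tsum_geometric_two' (1 : ℝ))
  rw [pow_succ]; field_simp

lemma summable_dg (x : X) : Summable fun j : ℕ => dg j x / 2 ^ (j + 1) := by
  refine Summable.of_nonneg_of_le (fun j => ?_) (fun j => ?_) summable_geo
  · exact div_nonneg (D_nonneg _ _) (by positivity)
  · apply div_le_div_of_nonneg_right (D_le _ _) (by positivity)

lemma r_ge (x : X) : 1 ≤ r x := by
  unfold r
  have : 0 ≤ ∑' j : ℕ, dg j x / 2 ^ (j + 1) :=
    tsum_nonneg fun j => div_nonneg (D_nonneg _ _) (by positivity)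
  linarith

lemma dg_continuous (j : ℕ) : Continuous (dg j) :=
  (continuous_of_discreteTopology (f := D j)).comp (res_continuous (j + 1))

lemma r_continuous : Continuous r := by
  refine continuous_const.add (continuous_tsum (fun j => (dg_continuous j).div_const _)
    summable_geo fun j x => ?_)
  have h0 : 0 ≤ dg j x / 2 ^ (j + 1) := div_nonneg (D_nonneg _ _) (by positivity)
  rw [Real.norm_of_nonneg h0]
  exact div_le_div_of_nonneg_right (D_le _ _) (by positivity)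

lemma r_roof : IsRoof r := ⟨r_continuous, fun x => by linarith [r_ge x]⟩

/-- the Birkhoff sums of the roof function -/
noncomputable def S (n : ℕ) (x : X) : ℝ := ∑ i ∈ Finset.range n, r (σ^[i] x)

lemma S_add (a b : ℕ) (x : X) : S (a + b) x = S a x + S b (σ^[a] x) := by
  unfold S
  rw [Finset.sum_range_add]
  congr 1
  apply Finset.sum_congr rfl
  intro i _
  rw [add_comm a i, Function.iterate_add_apply]

lemma S_ge (n : ℕ) (x : X) : (n : ℝ) ≤ S n x := by
  unfold S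
  calc (n : ℝ) = ∑ i ∈ Finset.range n, (1 : ℝ) := by simp
    _ ≤ _ := Finset.sum_le_sum fun i _ => r_ge _

lemma glue_pow (n : ℕ) (p : X × ℝ) :
    (glue X_shift r_roof ^ n) p = (σ^[n] p.1, p.2 - S n p.1) := by
  induction n with
  | zero => simp [S]
  | succ n ih =>
    rw [pow_succ', Homeomorph.mul_apply, ih]
    change (σ (σ^[n] p.1), p.2 - S n p.1 - r (σ^[n] p.1)) = _
    rw [← Function.iterate_succ_apply' σ, S_add n 1]
    simp [S]
    ring

/-- the return times -/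
noncomputable def C (m : ℕ) : ℝ := 2 ^ m + ∑ j ∈ Finset.range m, (2 : ℝ) ^ (m - 1) / 2 ^ (j + 1)

lemma S_eq (n : ℕ) (x : X) :
    S n x = n + ∑' j : ℕ, (∑ i ∈ Finset.range n, D j (res (j + 1) x + i)) / 2 ^ (j + 1) := by
  unfold S r
  rw [Finset.sum_add_distrib, Finset.sum_const, Finset.card_range, nsmul_eq_mul, mul_one]
  rw [← Summable.tsum_finsetSum fun i _ => summable_dg _]
  congr 1
  apply tsum_congr
  intro j
  rw [Finset.sum_div]
  apply Finset.sum_congr rfl
  intro i _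
  rw [dg_iter]

lemma S_bounds (m : ℕ) (x : X) : C m ≤ S (2 ^ m) x ∧ S (2 ^ m) x ≤ C m + 1 := by
  rw [S_eq]
  set f : ℕ → ℝ := fun j => (∑ i ∈ Finset.range (2 ^ m), D j (res (j + 1) x + i)) / 2 ^ (j + 1)
    with hf
  have h0 : ∀ j, 0 ≤ f j := fun j =>
    div_nonneg (Finset.sum_nonneg fun i _ => D_nonneg _ _) (by positivity)
  have h1 : ∀ j, f j ≤ 2 ^ m * (1 / 2 ^ (j + 1)) := fun j => by
    simp only [hf]
    rw [mul_one_div]
    apply div_le_div_of_nonneg_right _ (by positivity)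
    calc ∑ i ∈ Finset.range (2 ^ m), D j (res (j + 1) x + i) ≤
        ∑ i ∈ Finset.range (2 ^ m), (1 : ℝ) := Finset.sum_le_sum fun i _ => D_le _ _
      _ = 2 ^ m := by simp
  have hs : Summable f := Summable.of_nonneg_of_le h0 h1 (summable_geo.mul_left _)
  have hsplit := hs.sum_add_tsum_nat_add m
  have h2 : ∀ j ∈ Finset.range m, f j = (2 : ℝ) ^ (m - 1) / 2 ^ (j + 1) := by
    intro j hj
    have hjm := Finset.mem_range.1 hj
    simp only [hf]
    have e1 : m = j + 1 + (m - 1 - j) := by omega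
    have e2 : m - 1 = j + (m - 1 - j) := by omega
    have := D_sum j (m - 1 - j) (res (j + 1) x)
    rw [← e1, ← e2] at this
    rw [this]
  rw [Finset.sum_congr rfl h2] at hsplit
  have h3 : 0 ≤ ∑' i, f (i + m) := tsum_nonneg fun i => h0 _
  have h4 : ∑' i, f (i + m) ≤ 1 := by
    rw [← tsum_geo]
    refine Summable.tsum_le_tsum (fun i => ?_) ((summable_nat_add_iff m).2 hs) summable_geo
    refine (h1 _).trans (le_of_eq ?_)
    have : (2 : ℝ) ^ (i + m + 1) = 2 ^ m * 2 ^ (i + 1) := by rw [← pow_add]; congr 1; ring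
    rw [this]
    field_simp
  unfold C
  rw [← hsplit]
  push_cast
  constructor <;> linarith

lemma C_ge (m : ℕ) : (2 : ℝ) ^ m ≤ C m := by
  unfold C
  have : (0 : ℝ) ≤ ∑ j ∈ Finset.range m, (2 : ℝ) ^ (m - 1) / 2 ^ (j + 1) :=
    Finset.sum_nonneg fun j _ => by positivity
  linarith

lemma isOpen_mk {U : Set (X × ℝ)} (hU : IsOpen U) :
    IsOpen (Quotient.mk (susp X_shift r_roof) '' U) := by
  have h : Quotient.mk (susp X_shift r_roof) ⁻¹' (Quotient.mk (susp X_shift r_roof) '' U) =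
      ⋃ n : ℤ, (glue X_shift r_roof ^ n) ⁻¹' U := by
    ext p
    simp only [mem_preimage, mem_image, mem_iUnion]
    constructor
    · rintro ⟨q, hq, he⟩
      obtain ⟨n, hn⟩ := Quotient.exact he.symm
      exact ⟨n, by rw [hn]; exact hq⟩
    · rintro ⟨n, hn⟩
      have hr : (susp X_shift r_roof).r p ((glue X_shift r_roof ^ n) p) := ⟨n, rfl⟩
      exact ⟨_, hn, (Quotient.sound hr).symm⟩
  refine (isQuotientMap_quotient_mk' (s := susp X_shift r_roof)).isOpen_preimage.1 ?_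
  change IsOpen (Quotient.mk (susp X_shift r_roof) ⁻¹' (Quotient.mk (susp X_shift r_roof) '' U))
  rw [h]
  exact isOpen_iUnion fun n => hU.preimage (glue X_shift r_roof ^ n).continuous

lemma isOpen_box (a : ℤ) : IsOpen {p : X × ℝ | res 2 p.1 = a ∧ 0 < p.2 ∧ p.2 < 1} := by
  apply IsOpen.inter
  · exact (isOpen_discrete {a}).preimage ((res_continuous 2).comp continuous_fst)
  · exact (isOpen_lt continuous_const continuous_snd).inter
      (isOpen_lt continuous_snd continuous_const)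

lemma not_mixing : ¬ IsMixing X_shift r_roof := by
  intro hmix
  obtain ⟨T, hT⟩ := hmix _ _ (isOpen_mk (isOpen_box 0)) (isOpen_mk (isOpen_box 1))
    ⟨_, (orb 0, 1 / 2), ⟨by rw [res_orb]; norm_num, by norm_num, by norm_num⟩, rfl⟩
    ⟨_, (orb 1, 1 / 2), ⟨by rw [res_orb]; norm_num, by norm_num, by norm_num⟩, rfl⟩
  obtain ⟨k, hk⟩ := exists_nat_ge T
  obtain ⟨z, ⟨z', ⟨⟨x, s⟩, ⟨hx, hs0, hs1⟩, rfl⟩, rfl⟩, ⟨y, s'⟩, ⟨hy, hs0', hs1'⟩, he⟩ :=
    hT (C (k + 2)) (by
      refine le_trans ?_ (C_ge _)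
      have h1 : ((k + 2 : ℕ) : ℝ) < 2 ^ (k + 2) := by exact_mod_cast Nat.lt_two_pow_self
      push_cast at h1
      linarith)
  simp only at hx hs0 hs1 hy hs0' hs1'
  have he' : Quotient.mk (susp X_shift r_roof) (x, s + C (k + 2)) =
      Quotient.mk (susp X_shift r_roof) (y, s') := he.symm
  obtain ⟨n, hn⟩ := Quotient.exact he'
  have hC : (4 : ℝ) ≤ C (k + 2) := by
    refine le_trans ?_ (C_ge _)
    rw [pow_add]
    have : (1 : ℝ) ≤ 2 ^ k := one_le_pow₀ (by norm_num)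
    linarith
  obtain ⟨n, rfl | rfl⟩ := n.eq_nat_or_neg
  · rw [zpow_natCast, glue_pow] at hn
    obtain ⟨hn1, hn2⟩ := Prod.mk.inj hn
    simp only at hn1 hn2
    obtain ⟨hb1, hb2⟩ := S_bounds (k + 2) x
    have hle : n ≤ 2 ^ (k + 2) := by
      by_contra hcon
      push Not at hcon
      obtain ⟨d, rfl⟩ : ∃ d, n = 2 ^ (k + 2) + (d + 1) := ⟨n - 2 ^ (k + 2) - 1, by omega⟩
      rw [S_add] at hn2
      have := S_ge (d + 1) (σ^[2 ^ (k + 2)] x)
      push_cast at this
      have hd : (0 : ℝ) ≤ d := Nat.cast_nonneg d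
      linarith
    have hge : 2 ^ (k + 2) ≤ n + 1 := by
      by_contra hcon
      push Not at hcon
      obtain ⟨d, hd⟩ : ∃ d, 2 ^ (k + 2) = n + (d + 2) := ⟨2 ^ (k + 2) - n - 2, by omega⟩
      rw [hd, S_add] at hb1 hb2
      have := S_ge (d + 2) (σ^[n] x)
      push_cast at this
      have hd : (0 : ℝ) ≤ d := Nat.cast_nonneg d
      linarith
    have h4 : (2 : ℕ) ^ (k + 2) = 4 * 2 ^ k := by rw [pow_add]; ring
    rw [← hn1, res_iter, hx] at hy
    omega
  · rw [zpow_neg, zpow_natCast] at hn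
    have hn' : (glue X_shift r_roof ^ n) (y, s') = (x, s + C (k + 2)) := by
      rw [← hn, ← Homeomorph.mul_apply, mul_inv_cancel]; rfl
    rw [glue_pow] at hn'
    obtain ⟨hn1, hn2⟩ := Prod.mk.inj hn'
    simp only at hn1 hn2
    have := S_ge n y
    have hn0 : (0 : ℝ) ≤ n := Nat.cast_nonneg n
    linarith

lemma w_rec {K : ℕ} {k : ℕ} (hk : K < 4 ^ k) {i : ℤ} (hi : |i| ≤ K) : w (i + 4 ^ k) = w i := by
  have h4 : (4 : ℤ) ^ k = 2 ^ (2 * k) := by rw [pow_mul]; norm_num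
  by_cases h : i = 0
  · subst h
    rw [zero_add, h4]
    unfold w
    rw [v_eq (s := 2 * k) (u := 1) (by ring) (by norm_num)]
    simp [padicValInt]
  · apply w_congr (k := 2 * k)
    · intro hd
      have := Int.le_of_dvd (abs_pos.2 h) ((dvd_abs _ _).2 hd)
      have h5 : (K : ℤ) < 4 ^ k := by exact_mod_cast hk
      omega
    · rw [add_sub_cancel_left, h4]

lemma near {U : Set X} (hU : IsOpen U) {x : X} (hx : x ∈ U) :
    ∃ N : ℕ, ∀ y : X, (∀ i : ℤ, |i| ≤ N → y.1 i = x.1 i) → y ∈ U := by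
  obtain ⟨O, hO, rfl⟩ := isOpen_induced_iff.1 hU
  obtain ⟨N, hN⟩ := nhds_win (hO.mem_nhds hx)
  exact ⟨N, fun y hy => hN y.1 hy⟩

lemma orb_mem {U : Set X} (hU : IsOpen U) (hne : U.Nonempty) : ∃ m : ℤ, orb m ∈ U := by
  obtain ⟨x, hx⟩ := hne
  obtain ⟨N, hN⟩ := near hU hx
  obtain ⟨m, hm⟩ := approx x N
  exact ⟨m, hN _ fun i hi => (hm i hi).symm⟩

lemma σ_orb (n : ℕ) (m : ℤ) : σ^[n] (orb m) = orb (m + n) := by
  apply Subtype.ext
  funext i
  rw [σ_iter]
  change w (m + (i + n)) = w (m + n + i)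
  congr 1; ring

lemma transitive : IsTransitive X_shift := by
  intro U V hU hV hUn hVn
  obtain ⟨a, ha⟩ := orb_mem hU hUn
  obtain ⟨b, hb⟩ := orb_mem hV hVn
  obtain ⟨N, hN⟩ := near hV hb
  set k : ℕ := (|a| + |b| + N + 1).toNat with hk
  have hk4 : k < 4 ^ k := Nat.lt_pow_self (by norm_num)
  have hkz : (k : ℤ) = |a| + |b| + N + 1 := by
    rw [hk, Int.toNat_of_nonneg (by positivity)]
  have hk4z : (k : ℤ) < 4 ^ k := by exact_mod_cast hk4
  have hab := abs_le.1 (le_refl |a|)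
  have hbb := abs_le.1 (le_refl |b|)
  have hb' : orb (b + 4 ^ k) ∈ V := by
    apply hN
    intro i hi
    change w (b + 4 ^ k + i) = w (b + i)
    rw [← w_rec hk4 (i := b + i)]
    · congr 1; ring
    · have := abs_add_le b i
      have := abs_nonneg a
      omega
  refine ⟨(b + 4 ^ k - a).toNat, by omega, orb (b + 4 ^ k), ⟨orb a, ha, ?_⟩, hb'⟩
  rw [σ_orb]
  congr 1
  omega

lemma no_periodic : periodic X_shift = ∅ := by
  rw [eq_empty_iff_forall_notMem]
  rintro x ⟨n, hn, hx⟩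
  have h1 := res_iter n n x
  rw [hx] at h1
  have h2 : (2 : ℤ) ^ n ∣ n := by
    have h3 : res n x % 2 ^ n = (res n x + n) % 2 ^ n := by
      rw [Int.emod_eq_of_lt (res_nonneg n x) (res_lt n x)]; exact h1
    have h4 := Int.modEq_iff_dvd.1 h3
    rwa [add_sub_cancel_left] at h4
  have h5 := Int.le_of_dvd (by exact_mod_cast hn) h2
  have h6 : (n : ℤ) < 2 ^ n := by exact_mod_cast Nat.lt_two_pow_self
  omega

lemma r_orb (a : ℤ) : r (orb a) = 1 + ∑' j : ℕ, D j a / 2 ^ (j + 1) := by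
  unfold r
  congr 1
  apply tsum_congr
  intro j
  rw [dg_orb]

lemma r_jump {m : ℕ} {a : ℤ} (h0 : 0 ≤ a) (h1 : a < 2 ^ m) :
    r (orb (a + 2 ^ m)) - r (orb a) = 1 / 2 ^ (m + 1) := by
  have hs : ∀ b : ℤ, Summable fun j : ℕ => D j b / 2 ^ (j + 1) := fun b =>
    (summable_dg (orb b)).congr fun j => by rw [dg_orb]
  rw [r_orb, r_orb, add_sub_add_left_eq_sub, ← (hs _).tsum_sub (hs _), tsum_eq_single m]
  · have e : (2 : ℤ) ^ (m + 1) = 2 ^ m + 2 ^ m := by rw [pow_succ]; ring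
    unfold D
    rw [Int.emod_eq_of_lt (by positivity) (by omega), Int.emod_eq_of_lt h0 (by omega),
      if_pos (by omega), if_neg (by omega)]
    ring
  · intro j hj
    have : D j (a + 2 ^ m) = D j a := by
      rcases lt_or_gt_of_ne hj with h | h
      · apply D_mod
        have : (2 : ℤ) ^ (j + 1) ∣ 2 ^ m := pow_dvd_pow 2 h
        exact (Int.emod_emod_of_dvd _ (dvd_refl _)).symm.trans (by
          rw [Int.emod_emod_of_dvd _ (dvd_refl _), Int.add_emod, Int.emod_eq_zero_of_dvd this,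
            add_zero, Int.emod_emod_of_dvd _ (dvd_refl _)])
      · have e : (2 : ℤ) ^ (m + 1) = 2 ^ m + 2 ^ m := by rw [pow_succ]; ring
        have e2 : (2 : ℤ) ^ (m + 1) ≤ 2 ^ j := pow_le_pow_right₀ (by norm_num) h
        have e3 : (2 : ℤ) ^ (j + 1) = 2 ^ j + 2 ^ j := by rw [pow_succ]; ring
        unfold D
        rw [Int.emod_eq_of_lt (by positivity) (by omega), Int.emod_eq_of_lt h0 (by omega),
          if_neg (by omega), if_neg (by omega)]
    rw [this, sub_self]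

lemma unif {h : X → ℝ} (hh : Continuous h) : ∃ N : ℕ, ∀ x y : X,
    (∀ i : ℤ, |i| ≤ N → x.1 i = y.1 i) → |h x - h y| < 1 / 16 := by
  haveI : CompactSpace X := isCompact_iff_compactSpace.1 X_shift.closed.isCompact
  have h1 : ∀ x : X, ∃ N : ℕ, ∀ y : X, (∀ i : ℤ, |i| ≤ N → y.1 i = x.1 i) →
      |h y - h x| < 1 / 32 := by
    intro x
    have hO : IsOpen {y : X | |h y - h x| < 1 / 32} :=
      isOpen_lt ((hh.sub continuous_const).abs) continuous_const
    exact near hO (by simp)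
  choose N hN using h1
  obtain ⟨t, -, ht⟩ := isCompact_univ.elim_nhds_subcover
    (fun x : X => {y : X | ∀ i : ℤ, |i| ≤ N x → y.1 i = x.1 i})
    (fun x _ => ((isOpen_win x.1 (N x)).preimage continuous_subtype_val).mem_nhds
      (fun _ _ => rfl))
  refine ⟨t.sup N, fun x y hxy => ?_⟩
  obtain ⟨z, hz, hxz⟩ := mem_iUnion₂.1 (ht (mem_univ x))
  have hle : (N z : ℤ) ≤ (t.sup N : ℕ) := by exact_mod_cast Finset.le_sup hz
  have a1 := hN z x hxz
  have a2 := hN z y fun i hi => (hxy i (hi.trans hle)).symm.trans (hxz i hi)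
  rw [abs_lt] at *
  constructor <;> linarith

lemma sum_cob {g h : X → ℝ} (hg : ∀ x, r x - g x = h (σ x) - h x) (n : ℕ) (x : X) :
    S n x - ∑ i ∈ Finset.range n, g (σ^[i] x) = h (σ^[n] x) - h x := by
  induction n with
  | zero => simp [S]
  | succ n ih =>
    have := hg (σ^[n] x)
    rw [← Function.iterate_succ_apply' σ] at this
    rw [Finset.sum_range_succ]
    unfold S at *
    rw [Finset.sum_range_succ]
    linarith

lemma not_cohomologous (g : X → ℝ) (hg : IsLocConst g) : ¬ Cohomologous X_shift r g := by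
  rintro ⟨h, hh, he⟩
  obtain ⟨N₀, hN₀⟩ := hg
  obtain ⟨N₁, hN₁⟩ := unif hh
  set N : ℕ := max N₀ N₁ with hN
  set m : ℕ := N + 3 with hm
  have hNm : 4 * (N + 1) ≤ 2 ^ m := by
    have : N + 1 ≤ 2 ^ (N + 1) := Nat.lt_two_pow_self.le
    rw [hm, show N + 3 = 2 + (N + 1) by ring, pow_add]
    omega
  obtain ⟨n, hn⟩ : ∃ n : ℕ, 2 ^ m = n + 2 * N + 2 := ⟨2 ^ m - 2 * N - 2, by omega⟩
  have hnz : (2 : ℤ) ^ m = n + 2 * N + 2 := by exact_mod_cast hn
  -- agreement of windows
  have hag : ∀ i : ℕ, i ≤ n → ∀ l : ℤ, |l| ≤ N →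
      (σ^[i] (orb (N + 1))).1 l = (σ^[i] (orb (N + 1 + 2 ^ m))).1 l := by
    intro i hi l hl
    rw [abs_le] at hl
    rw [σ_iter, σ_iter]
    change w (N + 1 + (l + i)) = w (N + 1 + 2 ^ m + (l + i))
    refine (w_congr (k := m) ?_ ?_).symm
    · intro hd
      have := Int.le_of_dvd (by omega) hd
      omega
    · exact ⟨1, by ring⟩
  have hgs : ∑ i ∈ Finset.range n, g (σ^[i] (orb (N + 1))) =
      ∑ i ∈ Finset.range n, g (σ^[i] (orb (N + 1 + 2 ^ m))) := by
    apply Finset.sum_congr rfl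
    intro i hi
    refine hN₀ _ _ fun l hl => hag i (Finset.mem_range.1 hi).le l (hl.trans ?_)
    exact_mod_cast le_max_left _ _
  have h1 := sum_cob he n (orb (N + 1))
  have h2 := sum_cob he n (orb (N + 1 + 2 ^ m))
  have h3 := hN₁ (σ^[n] (orb (N + 1))) (σ^[n] (orb (N + 1 + 2 ^ m))) fun l hl =>
    hag n le_rfl l (hl.trans (by exact_mod_cast le_max_right _ _))
  have h4 := hN₁ (orb (N + 1)) (orb (N + 1 + 2 ^ m)) fun l hl =>
    hag 0 (Nat.zero_le _) l (hl.trans (by exact_mod_cast le_max_right _ _))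
  have h5 : S n (orb (N + 1 + 2 ^ m)) - S n (orb (N + 1)) = n * (1 / 2 ^ (m + 1)) := by
    unfold S
    rw [← Finset.sum_sub_distrib, Finset.sum_congr rfl (g := fun _ => (1 : ℝ) / 2 ^ (m + 1))]
    · simp
    · intro i hi
      have hi := Finset.mem_range.1 hi
      rw [σ_orb, σ_orb]
      have : (N : ℤ) + 1 + 2 ^ m + i = (N + 1 + i) + 2 ^ m := by ring
      rw [this]
      exact r_jump (by positivity) (by omega)
  have h6 : (1 : ℝ) / 4 ≤ n * (1 / 2 ^ (m + 1)) := by
    have h7 : (2 : ℝ) ^ m ≤ 2 * n := by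
      have : 2 ^ m ≤ 2 * n := by omega
      exact_mod_cast this
    rw [mul_one_div, le_div_iff₀ (by positivity), pow_succ]
    linarith
  rw [abs_lt] at h3 h4
  linarith [h3.1, h3.2, h4.1, h4.2]

/-- There is a transitive shift space without periodic points and a roof function on it whose
suspension flow is not topologically mixing, and which is not cohomologous to any locally constant
function (in particular to no constant). -/
theorem result : ∃ (X : Set (ℤ → Bool)) (hX : IsShiftSpace X),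
    IsTransitive hX ∧ (periodic hX).Finite ∧
    ∃ (r : X → ℝ) (hr : IsRoof r), ¬ IsMixing hX hr ∧
      (∀ c : ℝ, ¬ Cohomologous hX r (fun _ => c)) ∧
      (∀ g : X → ℝ, IsLocConst g → ¬ Cohomologous hX r g) :=
  ⟨X, X_shift, transitive, by rw [no_periodic]; exact finite_empty, r, r_roof, not_mixing,
    fun c => not_cohomologous _ ⟨0, fun _ _ _ => rfl⟩, not_cohomologous⟩

end Pool.Agent.Results.MP_49f1ce_an.PeriodDoubling
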